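import Pool.Agent.L0h38.GI.Stm3

/-!
# Project GI2: module EXC (exchange)
-/

set_option autoImplicit false

namespace Pool.Agent.L0h63.GI

open Pool.Agent.L0h38.GI

section listprod

variable {κ : Type} [DecidableEq κ] {B : κ → Type} [∀ j, Group (B j)]

theorem list_single (g : ∀ j, B j) : ∀ L : List κ, L.Nodup →
    (L.map fun k => (Pi.mulSingle k (g k) : ∀ j, B j)).prod = fun k => if k ∈ L then g k else 1 := by
  intro L
  induction L with
  | nil => intro _; funext k; simp
  | cons a L ih =>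
    intro hL
    rw [List.nodup_cons] at hL
    rw [List.map_cons, List.prod_cons, ih hL.2]
    funext k
    rw [Pi.mul_apply]
    by_cases hk : k = a
    · subst hk
      rw [Pi.mulSingle_eq_same, if_neg hL.1, mul_one, if_pos (by simp)]
    · rw [Pi.mulSingle_eq_of_ne hk, one_mul]
      by_cases hkL : k ∈ L
      · rw [if_pos hkL, if_pos (by simp [hkL])]
      · rw [if_neg hkL, if_neg (by simp [hkL, hk])]

end listprod

theorem t_EXC (hFSM : S_FSM) : S_EXC := by
  classical
  intro A A' κ _ _ _ B _ hFC hI hIB ⟨e⟩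
  obtain ⟨n, ⟨ε⟩⟩ := Finite.exists_equiv_fin κ
  -- the homomorphisms
  let ρ : ∀ j, A →* B j := fun j =>
    ((Pi.evalMonoidHom B j).comp e.toMonoidHom).comp (MonoidHom.inl A A')
  let β : ∀ j, B j →* A := fun j =>
    ((MonoidHom.fst A A').comp e.symm.toMonoidHom).comp (MonoidHom.mulSingle B j)
  have hρ : ∀ j a, ρ j a = e (a, 1) j := fun _ _ => rfl
  have hβ : ∀ j b, β j b = (e.symm (Pi.mulSingle j b)).1 := fun _ _ => rfl
  let f : Fin n → A →* A := fun i => (β (ε.symm i)).comp (ρ (ε.symm i))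
  have hf : ∀ i a, f i a = β (ε.symm i) (ρ (ε.symm i) a) := fun _ _ => rfl
  have hnorm : ∀ i, NormEnd (f i) := by
    intro i g x
    rw [hf, hf, hβ, hβ]
    have h1 : (Pi.mulSingle (ε.symm i) (ρ (ε.symm i) (g * x * g⁻¹)) : ∀ j, B j) =
        e (g, 1) * Pi.mulSingle (ε.symm i) (ρ (ε.symm i) x) * (e (g, 1))⁻¹ := by
      funext k
      by_cases hk : k = ε.symm i
      · subst hk
        rw [Pi.mul_apply, Pi.mul_apply, Pi.mulSingle_eq_same, Pi.mulSingle_eq_same, Pi.inv_apply,
          map_mul, map_mul, map_inv, hρ]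
      · rw [Pi.mul_apply, Pi.mul_apply, Pi.mulSingle_eq_of_ne hk, Pi.mulSingle_eq_of_ne hk,
          Pi.inv_apply, mul_one, mul_inv_cancel]
    rw [h1, map_mul, map_mul, map_inv, MulEquiv.symm_apply_apply]
    simp
  have hcomm : ∀ i k, i ≠ k → ∀ x y, Commute (f i x) (f k y) := by
    intro i k hik x y
    have h1 : Commute (Pi.mulSingle (ε.symm i) (ρ (ε.symm i) x) : ∀ j, B j)
        (Pi.mulSingle (ε.symm k) (ρ (ε.symm k) y)) :=
      Pi.mulSingle_commute (fun h => hik (ε.symm.injective h)) _ _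
    have h2 := h1.map ((MonoidHom.fst A A').comp e.symm.toMonoidHom)
    exact h2
  have hprod : ∀ x, (List.ofFn fun i => f i x).prod = x := by
    intro x
    have h1 := list_single (e (x, 1)) (List.ofFn fun i => ε.symm i)
      (List.nodup_ofFn.2 ε.symm.injective)
    have h2 : (fun k => if k ∈ (List.ofFn fun i => ε.symm i) then e (x, 1) k else 1) =
        e (x, 1) := by
      funext k
      rw [if_pos]
      rw [List.mem_ofFn]
      exact ⟨ε k, by simp⟩
    rw [h2] at h1
    have h3 := congrArg ((MonoidHom.fst A A').comp e.symm.toMonoidHom) h1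
    rw [map_list_prod, List.map_map, List.map_ofFn] at h3
    have h4 : ((MonoidHom.fst A A').comp e.symm.toMonoidHom) (e (x, 1)) = x := by
      show (e.symm (e (x, 1))).1 = x
      rw [MulEquiv.symm_apply_apply]
    rw [h4] at h3
    exact h3
  obtain ⟨i, hi⟩ := hFSM A hFC hI n f hnorm hcomm hprod
  set j := ε.symm i with hj
  have hinj : Function.Injective (ρ j) := fun a b hab => hi.1 (by rw [hf, hf, ← hj, hab])
  have hker : ∀ b : B j, β j b = 1 → ∀ a : A, ρ j a = b → b = 1 := by
    intro b hb a hab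
    have : f i a = f i 1 := by rw [map_one, hf, ← hj, hab, hb]
    rw [← hab, hi.1 this, map_one]
  -- the image is normal
  have hnormal : ∀ (b : B j) (a : A), ∃ a' : A, b * ρ j a * b⁻¹ = ρ j a' := by
    intro b a
    obtain ⟨z, hz⟩ : ∃ z : A × A', e z j = b :=
      ⟨e.symm (Pi.mulSingle j b), by rw [MulEquiv.apply_symm_apply, Pi.mulSingle_eq_same]⟩
    refine ⟨z.1 * a * z.1⁻¹, ?_⟩
    rw [hρ, hρ, ← hz]
    have : ((z.1 * a * z.1⁻¹, 1) : A × A') = z * (a, 1) * z⁻¹ := by
      ext <;> simp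
    rw [this, map_mul, map_mul, map_inv]
    rfl
  let K := (β j).ker
  have hK : ∀ a (k : K), Commute (ρ j a) (k : B j) := by
    intro a k
    -- the commutator lies in both
    have h1 : β j (ρ j a * k * (ρ j a)⁻¹ * (k : B j)⁻¹) = 1 := by
      have : β j (k : B j) = 1 := k.2
      rw [map_mul, map_mul, map_mul, map_inv, map_inv, this]
      simp
    obtain ⟨a', ha'⟩ := hnormal (k : B j) a⁻¹
    have h2 : ρ j (a * a') = ρ j a * k * (ρ j a)⁻¹ * (k : B j)⁻¹ := by
      rw [map_mul, ← ha', map_inv]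
      group
    have h3 := hker _ h1 _ h2
    rw [mul_inv_eq_one, mul_inv_eq_iff_eq_mul] at h3
    exact h3
  let φ : A × K →* B j := MonoidHom.noncommCoprod (ρ j) K.subtype hK
  have hφ : ∀ a k, φ (a, k) = ρ j a * k := fun _ _ => rfl
  have hsurj : Function.Surjective φ := by
    intro b
    obtain ⟨a, ha⟩ := hi.2 (β j b)
    refine ⟨(a, ⟨(ρ j a)⁻¹ * b, ?_⟩), ?_⟩
    · show β j ((ρ j a)⁻¹ * b) = 1
      rw [map_mul, map_inv, ← ha, hf, ← hj]
      simp
    · rw [hφ]; simp
  have hinjφ : Function.Injective φ := by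
    rw [injective_iff_map_eq_one]
    rintro ⟨a, k⟩ h
    rw [hφ] at h
    have hk : β j (k : B j) = 1 := k.2
    have h1 : f i a = f i 1 := by
      rw [map_one, hf, ← hj]
      have := congrArg (β j) h
      rw [map_mul, hk, mul_one, map_one] at this
      exact this
    have ha : a = 1 := hi.1 h1
    subst ha
    rw [map_one, one_mul] at h
    ext
    · rfl
    · exact h
  have hcases := (hIB j).2 A K ⟨(MulEquiv.ofBijective φ ⟨hinjφ, hsurj⟩).symm⟩
  have hKt : ∀ k : K, k = 1 := by
    rcases hcases with h | h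
    · obtain ⟨g, hg⟩ := hI.1
      exact absurd (h g) hg
    · exact h
  have hβinj : Function.Injective (β j) := by
    rw [injective_iff_map_eq_one]
    intro b hb
    exact congrArg Subtype.val (hKt ⟨b, hb⟩)
  have hβsurj : Function.Surjective (β j) := by
    intro a
    obtain ⟨x, hx⟩ := hi.2 a
    exact ⟨ρ j x, hx⟩
  have hρsurj : Function.Surjective (ρ j) := by
    intro b
    obtain ⟨x, hx⟩ := hi.2 (β j b)
    exact ⟨x, hβinj hx⟩
  refine ⟨j, ⟨MulEquiv.ofBijective (ρ j) ⟨hinj, hρsurj⟩⟩, ?_⟩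
  let ψ : A' →* (∀ k : {k // k ≠ j}, B k.1) :=
    MonoidHom.pi fun k => ((Pi.evalMonoidHom B k.1).comp e.toMonoidHom).comp (MonoidHom.inr A A')
  have hψ : ∀ a' k, ψ a' k = e (1, a') k.1 := fun _ _ => rfl
  refine ⟨MulEquiv.ofBijective ψ ⟨?_, ?_⟩⟩
  · rw [injective_iff_map_eq_one]
    intro a' ha'
    have h1 : e (1, a') = Pi.mulSingle j (e (1, a') j) := by
      funext k
      by_cases hk : k = j
      · subst hk; rw [Pi.mulSingle_eq_same]
      · rw [Pi.mulSingle_eq_of_ne hk]
        have := congrFun ha' ⟨k, hk⟩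
        exact this
    have h2 : β j (e (1, a') j) = 1 := by
      rw [hβ, ← h1, MulEquiv.symm_apply_apply]
    have h3 : e (1, a') j = 1 := hβinj (by rw [h2, map_one])
    rw [h3, Pi.mulSingle_one] at h1
    have h4 : ((1, a') : A × A') = 1 := e.injective (by rw [h1, map_one])
    exact congrArg Prod.snd h4
  · intro c
    let g : ∀ k, B k := fun k => if h : k = j then 1 else c ⟨k, h⟩
    obtain ⟨b, hb⟩ := hβsurj (e.symm g).1⁻¹
    refine ⟨(e.symm (Pi.mulSingle j b * g)).2, ?_⟩
    have h1 : (1, (e.symm (Pi.mulSingle j b * g)).2) = e.symm (Pi.mulSingle j b * g) := by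
      ext
      · show (1 : A) = (e.symm (Pi.mulSingle j b * g)).1
        rw [map_mul, Prod.fst_mul]
        have : (e.symm (Pi.mulSingle j b)).1 = (e.symm g).1⁻¹ := hb
        rw [this, inv_mul_cancel]
      · rfl
    funext k
    rw [hψ, h1, MulEquiv.apply_symm_apply, Pi.mul_apply, Pi.mulSingle_eq_of_ne k.2, one_mul]
    show (if h : k.1 = j then 1 else c ⟨k.1, h⟩) = c k
    rw [dif_neg k.2]

end Pool.Agent.L0h63.GI
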