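import Pool.Agent.L0h38.GI.Stm4
import Pool.Agent.Helper926.RK.RELib

/-!
# Project GI2: module FRE (finite indecomposable groups)
-/

set_option autoImplicit false

namespace Pool.Agent.L0h63.GI.FRE

open Pool.Agent.L0h38.GI Pool.Agent.Q223.IS Pool.Agent.Q32.DP

/-! ### 1. enumeration of lists -/

/-- all lists of length `n` with entries `< m` -/
def allL (m n : ℕ) : List (List ℕ) :=
  (fun L : List (List ℕ) => (List.range m).flatMap fun i => L.map fun l => i :: l)^[n] [[]]

theorem mem_allL (m : ℕ) : ∀ (n : ℕ) (l : List ℕ), l ∈ allL m n ↔ l.length = n ∧ ∀ x ∈ l, x < m := by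
  intro n
  induction n with
  | zero =>
    intro l
    unfold allL
    simp only [Function.iterate_zero, id, List.mem_singleton]
    constructor
    · rintro rfl; simp
    · rintro ⟨h, -⟩; exact List.length_eq_zero_iff.1 h
  | succ n ih =>
    intro l
    unfold allL at ih ⊢
    rw [Function.iterate_succ_apply']
    simp only [List.mem_flatMap, List.mem_range, List.mem_map]
    constructor
    · rintro ⟨i, hi, t, ht, rfl⟩
      obtain ⟨h1, h2⟩ := (ih t).1 ht
      refine ⟨by simp [h1], ?_⟩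
      intro x hx
      rcases List.mem_cons.1 hx with rfl | hx
      · exact hi
      · exact h2 x hx
    · rintro ⟨h1, h2⟩
      cases l with
      | nil => simp at h1
      | cons i t =>
        refine ⟨i, h2 i (by simp), t, (ih t).2 ⟨by simpa using h1, ?_⟩, rfl⟩
        intro x hx
        exact h2 x (by simp [hx])

section prim

variable {α : Type} [Primcodable α]

theorem allL_pr {m n : α → ℕ} (hm : Primrec m) (hn : Primrec n) :
    Primrec fun a => allL (m a) (n a) := by
  refine Primrec.nat_iterate hn (Primrec.const [[]]) ?_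
  refine Primrec.list_flatMap (Primrec.list_range.comp (hm.comp Primrec.fst)) ?_
  refine (Primrec.list_map (f := fun x : (α × List (List ℕ)) × ℕ => x.1.2)
    (g := fun x l => x.2 :: l) (Primrec.snd.comp Primrec.fst) ?_).to₂
  exact (Primrec.list_cons.comp (Primrec.snd.comp Primrec.fst) Primrec.snd).to₂

end prim

/-! ### 2. multiplication tables -/

/-- the entry of a table -/
def mu (T : List (List ℕ)) (i j : ℕ) : ℕ := (T.getD i []).getD j 0

/-- tables of groups with neutral element `0` -/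
def GT (T : List (List ℕ)) : Prop :=
  0 < T.length ∧
  (∀ i ∈ List.range T.length, ∀ j ∈ List.range T.length, mu T i j < T.length) ∧
  (∀ i ∈ List.range T.length, mu T 0 i = i) ∧
  (∀ i ∈ List.range T.length, ∀ j ∈ List.range T.length, ∀ k ∈ List.range T.length,
    mu T (mu T i j) k = mu T i (mu T j k)) ∧
  (∀ i ∈ List.range T.length, ∃ j ∈ List.range T.length, mu T j i = 0)

/-- the group of a table -/
def Gp (T : List (List ℕ)) (_ : GT T) : Type := Fin T.length

noncomputable instance (T : List (List ℕ)) (h : GT T) : Group (Gp T h) := by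
  let m : Fin T.length → Fin T.length → Fin T.length := fun i j =>
    ⟨mu T i.1 j.1, h.2.1 i.1 (List.mem_range.2 i.2) j.1 (List.mem_range.2 j.2)⟩
  have hinv : ∀ i : Fin T.length, ∃ j : Fin T.length, m j i = ⟨0, h.1⟩ := by
    intro i
    obtain ⟨j, hj, hji⟩ := h.2.2.2.2 i.1 (List.mem_range.2 i.2)
    exact ⟨⟨j, List.mem_range.1 hj⟩, Fin.ext hji⟩
  letI : Mul (Gp T h) := ⟨m⟩
  letI : One (Gp T h) := ⟨(⟨0, h.1⟩ : Fin T.length)⟩
  letI : Inv (Gp T h) := ⟨fun i => (hinv i).choose⟩
  exact Group.ofLeftAxioms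
    (fun i j k => Fin.ext (h.2.2.2.1 i.1 (List.mem_range.2 i.2) j.1 (List.mem_range.2 j.2) k.1
      (List.mem_range.2 k.2)))
    (fun i => Fin.ext (h.2.2.1 i.1 (List.mem_range.2 i.2)))
    (fun i => (hinv i).choose_spec)

/-- the element with a given number -/
def el {T : List (List ℕ)} (h : GT T) (i : ℕ) (hi : i < T.length) : Gp T h := (⟨i, hi⟩ : Fin T.length)

/-- the number of an element -/
def nu {T : List (List ℕ)} {h : GT T} (x : Gp T h) : ℕ := Fin.val x

theorem nu_lt {T : List (List ℕ)} {h : GT T} (x : Gp T h) : nu x < T.length := Fin.isLt x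

theorem nu_mem {T : List (List ℕ)} {h : GT T} (x : Gp T h) : nu x ∈ List.range T.length :=
  List.mem_range.2 (nu_lt x)

theorem nu_inj {T : List (List ℕ)} {h : GT T} {x y : Gp T h} (hxy : nu x = nu y) : x = y :=
  Fin.ext hxy

theorem nu_el {T : List (List ℕ)} (h : GT T) (i : ℕ) (hi : i < T.length) : nu (el h i hi) = i := rfl

theorem nu_mul {T : List (List ℕ)} {h : GT T} (x y : Gp T h) : nu (x * y) = mu T (nu x) (nu y) := rfl

theorem nu_one {T : List (List ℕ)} {h : GT T} : nu (1 : Gp T h) = 0 := rfl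

instance (T : List (List ℕ)) (h : GT T) : Finite (Gp T h) := inferInstanceAs (Finite (Fin T.length))

theorem card_Gp (T : List (List ℕ)) (h : GT T) : Nat.card (Gp T h) = T.length :=
  Nat.card_fin T.length

/-- every finite group has a table -/
theorem exists_table (X : Type) [Group X] [Finite X] : ∃ (T : List (List ℕ)) (h : GT T),
    Nonempty (X ≃* Gp T h) := by
  classical
  obtain ⟨n, ⟨ε0⟩⟩ := Finite.exists_equiv_fin X
  have hn : 0 < n := (Fin.pos (ε0 1))
  let ε : X ≃ Fin n := ε0.trans (Equiv.swap (ε0 1) ⟨0, hn⟩)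
  have hε1 : ε 1 = ⟨0, hn⟩ := by
    show Equiv.swap (ε0 1) ⟨0, hn⟩ (ε0 1) = _
    rw [Equiv.swap_apply_left]
  let T : List (List ℕ) := List.ofFn fun i : Fin n => List.ofFn fun j : Fin n =>
    (ε (ε.symm i * ε.symm j)).1
  have hlen : T.length = n := List.length_ofFn
  have hmu : ∀ (i j : Fin n), mu T i.1 j.1 = (ε (ε.symm i * ε.symm j)).1 := by
    intro i j
    show ((List.ofFn _).getD i.1 []).getD j.1 0 = _
    have h1 : ∀ i : Fin n, (List.ofFn fun i : Fin n => List.ofFn fun j : Fin n =>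
        (ε (ε.symm i * ε.symm j)).1).getD i.1 [] = List.ofFn fun j : Fin n =>
        (ε (ε.symm i * ε.symm j)).1 := by
      intro i
      rw [List.getD_eq_getElem _ _ (by rw [List.length_ofFn]; exact i.2), List.getElem_ofFn]
    rw [h1, List.getD_eq_getElem _ _ (by rw [List.length_ofFn]; exact j.2), List.getElem_ofFn]
  have hfin : ∀ i ∈ List.range T.length, ∃ x : X, i = (ε x).1 := by
    intro i hi
    rw [hlen, List.mem_range] at hi
    exact ⟨ε.symm ⟨i, hi⟩, by simp⟩
  have hmux : ∀ x y : X, mu T (ε x).1 (ε y).1 = (ε (x * y)).1 := by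
    intro x y
    rw [hmu]; simp
  have h0 : (0 : ℕ) = (ε 1).1 := by rw [hε1]
  have hGT : GT T := by
    refine ⟨by rw [hlen]; exact hn, ?_, ?_, ?_, ?_⟩
    · intro i hi j hj
      obtain ⟨x, rfl⟩ := hfin i hi
      obtain ⟨y, rfl⟩ := hfin j hj
      rw [hmux, hlen]
      exact (ε (x * y)).2
    · intro i hi
      obtain ⟨x, rfl⟩ := hfin i hi
      rw [h0, hmux, one_mul]
    · intro i hi j hj k hk
      obtain ⟨x, rfl⟩ := hfin i hi
      obtain ⟨y, rfl⟩ := hfin j hj
      obtain ⟨z, rfl⟩ := hfin k hk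
      rw [hmux, hmux, hmux, hmux, mul_assoc]
    · intro i hi
      obtain ⟨x, rfl⟩ := hfin i hi
      refine ⟨(ε x⁻¹).1, ?_, ?_⟩
      · rw [hlen, List.mem_range]; exact (ε x⁻¹).2
      · rw [hmux, inv_mul_cancel, ← h0]
  refine ⟨T, hGT, ⟨?_⟩⟩
  let F : X →* Gp T hGT :=
    { toFun := fun x => el hGT (ε x).1 (by rw [hlen]; exact (ε x).2)
      map_one' := nu_inj (by rw [nu_el, nu_one, ← h0])
      map_mul' := fun x y => nu_inj (by rw [nu_el, nu_mul, nu_el, nu_el, hmux]) }
  have hF : ∀ x, nu (F x) = (ε x).1 := fun _ => rfl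
  refine MulEquiv.ofBijective F ⟨?_, ?_⟩
  · intro x y hxy
    have := congrArg nu hxy
    rw [hF, hF] at this
    exact ε.injective (Fin.ext this)
  · intro y
    obtain ⟨x, hx⟩ := hfin (nu y) (nu_mem y)
    exact ⟨x, nu_inj (by rw [hF, hx])⟩

/-! ### 3. presentations of tables -/

/-- the presentation of a table -/
def prs (T : List (List ℕ)) : Pres :=
  (T.length, (List.range T.length).flatMap fun i => (List.range T.length).map fun j =>
    [(i, true), (j, true), (mu T i j, false)])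

theorem prs_iso (T : List (List ℕ)) (h : GT T) : Nonempty (PG (prs T) ≃* Gp T h) := by
  classical
  let x : ℕ → Gp T h := fun i => if hi : i < T.length then el h i hi else 1
  have hx1 : ∀ i, (prs T).1 ≤ i → x i = 1 := fun i hi => dif_neg (not_lt.2 hi)
  have hxn : ∀ y : Gp T h, x (nu y) = y := fun y => by
    show (if hi : nu y < T.length then el h (nu y) hi else 1) = y
    rw [dif_pos (nu_lt y)]
    rfl
  have hr : ∀ w ∈ (prs T).2, ev x w = 1 := by
    intro w hw
    simp only [prs, List.mem_flatMap, List.mem_map, List.mem_range] at hw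
    obtain ⟨i, hi, j, hj, rfl⟩ := hw
    have h1 : x (mu T i j) = x i * x j := by
      have e1 : x i = el h i hi := dif_pos hi
      have e2 : x j = el h j hj := dif_pos hj
      have e3 : mu T i j = nu (el h i hi * el h j hj) := rfl
      rw [e1, e2, e3, hxn]
    rw [ev_cons, ev_cons (u := [(mu T i j, false)]), ev_true, ev_true, ev_false, h1]
    group
  obtain ⟨F, hF⟩ := PG_lift (prs T) x hx1 hr
  have hgm : ∀ i j, i < T.length → j < T.length →
      gen (prs T) (mu T i j) = gen (prs T) i * gen (prs T) j := by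
    intro i j hi hj
    have h1 : ev (gen (prs T)) [(i, true), (j, true), (mu T i j, false)] = 1 := by
      apply PG_rel
      simp only [prs, List.mem_flatMap, List.mem_map, List.mem_range]
      exact ⟨i, hi, j, hj, rfl⟩
    rw [ev_cons, ev_cons (u := [(mu T i j, false)]), ev_true, ev_true, ev_false, ← mul_assoc,
      mul_inv_eq_one] at h1
    exact h1.symm
  let I : Gp T h →* PG (prs T) := MonoidHom.mk' (fun y => gen (prs T) (nu y)) (by
    intro y z
    show gen (prs T) (nu (y * z)) = _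
    rw [nu_mul, hgm _ _ (nu_lt y) (nu_lt z)])
  have hI : ∀ y, I y = gen (prs T) (nu y) := fun _ => rfl
  refine ⟨MulEquiv.ofBijective F ⟨?_, ?_⟩⟩
  · have h2 : I.comp F = MonoidHom.id _ := by
      apply PG_ext
      intro i
      rw [MonoidHom.comp_apply, hF, hI, MonoidHom.id_apply]
      by_cases hi : i < T.length
      · have : x i = el h i hi := dif_pos hi
        rw [this, nu_el]
      · rw [hx1 i (not_lt.1 hi), nu_one, gen_big (prs T) (not_lt.1 hi)]
        have := hI 1
        rw [map_one, nu_one] at this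
        exact this.symm
    intro a b hab
    have h3 := DFunLike.congr_fun h2 a
    have h4 := DFunLike.congr_fun h2 b
    rw [MonoidHom.comp_apply, MonoidHom.id_apply] at h3 h4
    rw [← h3, ← h4, hab]
  · intro y
    exact ⟨gen (prs T) (nu y), by rw [hF, hxn]⟩

theorem finite_iff (k : Pres) : Finite (PG k) ↔ ∃ T, GT T ∧ Nonempty (PG k ≃* PG (prs T)) := by
  constructor
  · intro hk
    obtain ⟨T, h, ⟨e⟩⟩ := exists_table (PG k)
    obtain ⟨e'⟩ := prs_iso T h
    exact ⟨T, h, ⟨e.trans e'.symm⟩⟩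
  · rintro ⟨T, h, ⟨e⟩⟩
    obtain ⟨e'⟩ := prs_iso T h
    exact Finite.of_equiv _ (e.trans e').toEquiv.symm

/-! ### 4. indecomposable groups -/

theorem Indec.congr {X Y : Type} [Group X] [Group Y] (e : X ≃* Y) (h : Indec X) : Indec Y := by
  refine ⟨?_, ?_⟩
  · obtain ⟨g, hg⟩ := h.1
    exact ⟨e g, fun h1 => hg (e.injective (by rw [h1, map_one]))⟩
  · rintro A B _ _ ⟨f⟩
    exact h.2 A B ⟨e.trans f⟩

theorem indec_iff (X : Type) [Group X] : Indec X ↔ (∃ g : X, g ≠ 1) ∧ ∀ e : X →* X,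
    (∀ x, e (e x) = e x) → NormEnd e → (∀ x, e x = 1) ∨ (∀ x, e x = x) := by
  constructor
  · rintro ⟨h1, h2⟩
    refine ⟨h1, ?_⟩
    intro e hid hn
    let A := e.range
    let K := e.ker
    have hAe : ∀ a : A, e (a : X) = a := by
      rintro ⟨_, y, rfl⟩
      exact hid y
    have hcomm : ∀ (a : A) (k : K), Commute (a : X) (k : X) := by
      intro a k
      have hk : e (k : X) = 1 := k.2
      have h3 : e ((a : X) * k * (a : X)⁻¹ * (k : X)⁻¹) = 1 := by
        rw [map_mul, map_mul, map_mul, map_inv, map_inv, hk, hAe]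
        simp
      have h4 : e ((a : X) * ((k : X) * (a : X)⁻¹ * (k : X)⁻¹)) =
          (a : X) * ((k : X) * (a : X)⁻¹ * (k : X)⁻¹) := by
        rw [map_mul, hn, map_inv, hAe]
      have h5 : (a : X) * k * (a : X)⁻¹ * (k : X)⁻¹ = 1 := by
        have : (a : X) * ((k : X) * (a : X)⁻¹ * (k : X)⁻¹) =
            (a : X) * k * (a : X)⁻¹ * (k : X)⁻¹ := by group
        rw [this, h3] at h4
        exact h4.symm
      rw [mul_inv_eq_one, mul_inv_eq_iff_eq_mul] at h5
      exact h5
    let φ : A × K →* X := MonoidHom.noncommCoprod A.subtype K.subtype hcomm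
    have hφ : ∀ a k, φ (a, k) = (a : X) * (k : X) := fun _ _ => rfl
    have hsurj : Function.Surjective φ := by
      intro x
      refine ⟨(⟨e x, x, rfl⟩, ⟨(e x)⁻¹ * x, ?_⟩), ?_⟩
      · show e ((e x)⁻¹ * x) = 1
        rw [map_mul, map_inv, hid, inv_mul_cancel]
      · rw [hφ]; simp
    have hinj : Function.Injective φ := by
      rw [injective_iff_map_eq_one]
      rintro ⟨a, k⟩ h
      rw [hφ] at h
      have hk : e (k : X) = 1 := k.2
      have h6 := congrArg e h
      rw [map_mul, hk, mul_one, hAe, map_one] at h6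
      rw [h6, one_mul] at h
      exact Prod.ext (Subtype.ext h6) (Subtype.ext h)
    rcases h2 A K ⟨(MulEquiv.ofBijective φ ⟨hinj, hsurj⟩).symm⟩ with h | h
    · left
      intro x
      exact congrArg Subtype.val (h ⟨e x, x, rfl⟩)
    · right
      intro x
      have : e ((e x)⁻¹ * x) = 1 := by rw [map_mul, map_inv, hid, inv_mul_cancel]
      have h7 := congrArg Subtype.val (h ⟨(e x)⁻¹ * x, this⟩)
      have h8 : (e x)⁻¹ * x = 1 := h7
      exact (inv_mul_eq_one.1 h8)
  · rintro ⟨h1, h2⟩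
    refine ⟨h1, ?_⟩
    rintro A B _ _ ⟨c⟩
    let e : X →* X := (c.symm.toMonoidHom.comp (MonoidHom.inl A B)).comp
      ((MonoidHom.fst A B).comp c.toMonoidHom)
    have he : ∀ x, e x = c.symm ((c x).1, 1) := fun _ => rfl
    rcases h2 e (by intro x; rw [he, he, MulEquiv.apply_symm_apply]) (by
      intro g x
      rw [he, he]
      apply c.injective
      have e1 : c (g * c.symm ((c x).1, 1) * g⁻¹) = c g * ((c x).1, 1) * (c g)⁻¹ := by
        rw [map_mul, map_mul, MulEquiv.apply_symm_apply, map_inv]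
      have e2 : c (g * x * g⁻¹) = c g * c x * (c g)⁻¹ := by rw [map_mul, map_mul, map_inv]
      rw [MulEquiv.apply_symm_apply, e1, e2]
      ext <;> simp) with h | h
    · left
      intro a
      have h3 := h (c.symm (a, 1))
      rw [he, MulEquiv.apply_symm_apply] at h3
      have h4 := congrArg c h3
      rw [MulEquiv.apply_symm_apply, map_one] at h4
      exact congrArg Prod.fst h4
    · right
      intro b
      have h3 := h (c.symm (1, b))
      rw [he, MulEquiv.apply_symm_apply] at h3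
      have h4 := congrArg c h3
      rw [MulEquiv.apply_symm_apply, MulEquiv.apply_symm_apply] at h4
      exact (congrArg Prod.snd h4).symm

/-- the value of a list, seen as a map -/
def vl (l : List ℕ) (i : ℕ) : ℕ := l.getD i 0

/-- normal idempotent endomorphisms as lists -/
def NE (T : List (List ℕ)) (l : List ℕ) : Prop :=
  (∀ i ∈ List.range T.length, ∀ j ∈ List.range T.length,
    vl l (mu T i j) = mu T (vl l i) (vl l j)) ∧
  (∀ i ∈ List.range T.length, vl l (vl l i) = vl l i) ∧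
  (∀ i ∈ List.range T.length, ∀ j ∈ List.range T.length, ∀ k ∈ List.range T.length,
    mu T k i = mu T i j → mu T (vl l k) i = mu T i (vl l j))

/-- indecomposable tables -/
def IndT (T : List (List ℕ)) : Prop :=
  2 ≤ T.length ∧ ∀ l ∈ allL T.length T.length, NE T l →
    (∀ i ∈ List.range T.length, vl l i = 0) ∨ (∀ i ∈ List.range T.length, vl l i = i)

/-- the list of a map -/
noncomputable def lst {T T' : List (List ℕ)} {h : GT T} {h' : GT T'} (f : Gp T h → Gp T' h') :
    List ℕ := List.ofFn fun i : Fin T.length => nu (f (el h i.1 i.2))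

theorem vl_lst {T T' : List (List ℕ)} {h : GT T} {h' : GT T'} (f : Gp T h → Gp T' h')
    (x : Gp T h) : vl (lst f) (nu x) = nu (f x) := by
  unfold vl lst
  rw [List.getD_eq_getElem _ _ (by rw [List.length_ofFn]; exact nu_lt x), List.getElem_ofFn]
  rfl

theorem lst_mem {T T' : List (List ℕ)} {h : GT T} {h' : GT T'} (f : Gp T h → Gp T' h') :
    lst f ∈ allL T'.length T.length := by
  rw [mem_allL]
  refine ⟨List.length_ofFn, ?_⟩
  intro x hx
  obtain ⟨i, rfl⟩ := List.mem_ofFn.1 hx
  exact nu_lt _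

theorem ex_nu {T : List (List ℕ)} (h : GT T) {i : ℕ} (hi : i ∈ List.range T.length) :
    ∃ x : Gp T h, i = nu x := ⟨el h i (List.mem_range.1 hi), rfl⟩

theorem vl_lt {m n : ℕ} {l : List ℕ} (hl : l ∈ allL m n) {i : ℕ} (hi : i < n) : vl l i < m := by
  obtain ⟨h1, h2⟩ := (mem_allL m n l).1 hl
  unfold vl
  rw [List.getD_eq_getElem _ _ (by rw [h1]; exact hi)]
  exact h2 _ (List.getElem_mem _)

/-- the map of a list -/
def fn {T T' : List (List ℕ)} {h : GT T} {h' : GT T'} {l : List ℕ}
    (hl : l ∈ allL T'.length T.length) (x : Gp T h) : Gp T' h' :=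
  el h' (vl l (nu x)) (vl_lt hl (nu_lt x))

theorem nu_fn {T T' : List (List ℕ)} {h : GT T} {h' : GT T'} {l : List ℕ}
    (hl : l ∈ allL T'.length T.length) (x : Gp T h) :
    nu (fn (h' := h') hl x) = vl l (nu x) := rfl

theorem IndT_iff (T : List (List ℕ)) (h : GT T) : IndT T ↔ Indec (Gp T h) := by
  rw [indec_iff]
  constructor
  · rintro ⟨h1, h2⟩
    refine ⟨⟨el h 1 (by omega), fun h3 => ?_⟩, ?_⟩
    · have := congrArg nu h3
      rw [nu_el, nu_one] at this
      omega
    · intro e hid hn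
      have hNE : NE T (lst e) := by
        refine ⟨?_, ?_, ?_⟩
        · intro i hi j hj
          obtain ⟨x, rfl⟩ := ex_nu h hi
          obtain ⟨y, rfl⟩ := ex_nu h hj
          rw [← nu_mul, vl_lst, vl_lst, vl_lst, map_mul, nu_mul]
        · intro i hi
          obtain ⟨x, rfl⟩ := ex_nu h hi
          rw [vl_lst, vl_lst, hid]
        · intro i hi j hj k hk
          obtain ⟨x, rfl⟩ := ex_nu h hi
          obtain ⟨y, rfl⟩ := ex_nu h hj
          obtain ⟨z, rfl⟩ := ex_nu h hk
          rw [vl_lst, vl_lst, ← nu_mul, ← nu_mul, ← nu_mul, ← nu_mul]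
          intro h4
          have h5 : z * x = x * y := nu_inj h4
          have h6 : z = x * y * x⁻¹ := by rw [← h5]; group
          have h7 : e z * x = x * e y := by
            rw [h6, hn]; group
          rw [h7]
      rcases h2 (lst e) (lst_mem e) hNE with h3 | h3
      · left
        intro x
        apply nu_inj
        rw [← vl_lst e x, h3 _ (nu_mem x), nu_one]
      · right
        intro x
        apply nu_inj
        rw [← vl_lst e x, h3 _ (nu_mem x)]
  · rintro ⟨h1, h2⟩
    refine ⟨?_, ?_⟩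
    · obtain ⟨g, hg⟩ := h1
      by_contra hc
      apply hg
      apply nu_inj
      have := nu_lt g
      rw [nu_one]
      omega
    · intro l hl hNE
      let e : Gp T h →* Gp T h := MonoidHom.mk' (fn hl) (by
        intro x y
        apply nu_inj
        rw [nu_fn, nu_mul, nu_mul, nu_fn, nu_fn]
        exact hNE.1 _ (nu_mem x) _ (nu_mem y))
      have he : ∀ x, nu (e x) = vl l (nu x) := fun _ => rfl
      rcases h2 e (by
        intro x
        apply nu_inj
        rw [he, he, hNE.2.1 _ (nu_mem x)]) (by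
        intro g x
        have h3 : nu (e (g * x * g⁻¹) * g) = nu (g * e x) := by
          rw [nu_mul, nu_mul, he, he]
          apply hNE.2.2 _ (nu_mem g) _ (nu_mem x) _ (nu_mem (g * x * g⁻¹))
          rw [← nu_mul, ← nu_mul]
          congr 1
          group
        have h4 := nu_inj h3
        rw [← h4]; group) with h3 | h3
      · left
        intro i hi
        obtain ⟨x, rfl⟩ := ex_nu h hi
        rw [← he, h3, nu_one]
      · right
        intro i hi
        obtain ⟨x, rfl⟩ := ex_nu h hi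
        rw [← he, h3]

/-! ### 5. isomorphism of tables -/

/-- `T` and `T'` are not isomorphic -/
def NonT (T T' : List (List ℕ)) : Prop := ∀ l ∈ allL T'.length T.length,
  ¬ (T.length = T'.length ∧
    (∀ i ∈ List.range T.length, ∀ j ∈ List.range T.length,
      vl l (mu T i j) = mu T' (vl l i) (vl l j)) ∧
    (∀ i ∈ List.range T.length, ∀ j ∈ List.range T.length, vl l i = vl l j → i = j))

theorem NonT_iff (T T' : List (List ℕ)) (h : GT T) (h' : GT T') :
    NonT T T' ↔ ¬ Nonempty (Gp T h ≃* Gp T' h') := by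
  constructor
  · rintro hN ⟨e⟩
    refine hN (lst e) (lst_mem e) ⟨?_, ?_, ?_⟩
    · rw [← card_Gp T h, ← card_Gp T' h']
      exact Nat.card_congr e.toEquiv
    · intro i hi j hj
      obtain ⟨x, rfl⟩ := ex_nu h hi
      obtain ⟨y, rfl⟩ := ex_nu h hj
      rw [← nu_mul, vl_lst, vl_lst, vl_lst, map_mul, nu_mul]
    · intro i hi j hj
      obtain ⟨x, rfl⟩ := ex_nu h hi
      obtain ⟨y, rfl⟩ := ex_nu h hj
      rw [vl_lst, vl_lst]
      intro hxy
      rw [e.injective (nu_inj hxy)]
  · intro hN l hl ⟨h1, h2, h3⟩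
    apply hN
    let e : Gp T h →* Gp T' h' := MonoidHom.mk' (fn hl) (by
        intro x y
        apply nu_inj
        rw [nu_fn, nu_mul, nu_mul, nu_fn, nu_fn]
        exact h2 _ (nu_mem x) _ (nu_mem y))
    have he : ∀ x, nu (e x) = vl l (nu x) := fun _ => rfl
    have hinj : Function.Injective e := by
      intro x y hxy
      have := congrArg nu hxy
      rw [he, he] at this
      exact nu_inj (h3 _ (nu_mem x) _ (nu_mem y) this)
    have hbij : Function.Bijective e := by
      rw [Nat.bijective_iff_injective_and_card, card_Gp, card_Gp]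
      exact ⟨hinj, h1⟩
    exact ⟨MulEquiv.ofBijective e hbij⟩

/-! ### 6. computability -/

section prim

variable {α : Type} [Primcodable α]

theorem mu_pr {T : α → List (List ℕ)} {i j : α → ℕ} (hT : Primrec T) (hi : Primrec i)
    (hj : Primrec j) : Primrec fun a => mu (T a) (i a) (j a) :=
  (Primrec.list_getD 0).comp ((Primrec.list_getD []).comp hT hi) hj

theorem vl_pr {l : α → List ℕ} {i : α → ℕ} (hl : Primrec l) (hi : Primrec i) :
    Primrec fun a => vl (l a) (i a) := (Primrec.list_getD 0).comp hl hi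

theorem rg_pr {T : α → List (List ℕ)} (hT : Primrec T) :
    Primrec fun a => List.range (T a).length :=
  Primrec.list_range.comp (Primrec.list_length.comp hT)

theorem GT_pr : PrimrecPred GT := by
  have hT1 : Primrec fun x : List (List ℕ) × ℕ => x.1 := Primrec.fst
  have hi1 : Primrec fun x : List (List ℕ) × ℕ => x.2 := Primrec.snd
  have hT2 : Primrec fun x : (List (List ℕ) × ℕ) × ℕ => x.1.1 := Primrec.fst.comp Primrec.fst
  have hi2 : Primrec fun x : (List (List ℕ) × ℕ) × ℕ => x.1.2 := Primrec.snd.comp Primrec.fst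
  have hj2 : Primrec fun x : (List (List ℕ) × ℕ) × ℕ => x.2 := Primrec.snd
  have hT3 : Primrec fun x : ((List (List ℕ) × ℕ) × ℕ) × ℕ => x.1.1.1 := hT2.comp Primrec.fst
  have hi3 : Primrec fun x : ((List (List ℕ) × ℕ) × ℕ) × ℕ => x.1.1.2 := hi2.comp Primrec.fst
  have hj3 : Primrec fun x : ((List (List ℕ) × ℕ) × ℕ) × ℕ => x.1.2 := hj2.comp Primrec.fst
  have hk3 : Primrec fun x : ((List (List ℕ) × ℕ) × ℕ) × ℕ => x.2 := Primrec.snd
  refine PrimrecPred.and (Primrec.nat_lt.comp (Primrec.const 0) Primrec.list_length) ?_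
  refine PrimrecPred.and (pp_ball (rg_pr Primrec.id) (pp_ball (rg_pr hT1)
    (Primrec.nat_lt.comp (mu_pr hT2 hi2 hj2) (Primrec.list_length.comp hT2)))) ?_
  refine PrimrecPred.and (pp_ball (rg_pr Primrec.id) (pp_eq (mu_pr hT1 (Primrec.const 0) hi1)
    hi1)) ?_
  refine PrimrecPred.and (pp_ball (rg_pr Primrec.id) (pp_ball (rg_pr hT1) (pp_ball (rg_pr hT2)
    (pp_eq (mu_pr hT3 (mu_pr hT3 hi3 hj3) hk3) (mu_pr hT3 hi3 (mu_pr hT3 hj3 hk3)))))) ?_
  exact pp_ball (rg_pr Primrec.id) (pp_bex (rg_pr hT1)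
    (pp_eq (mu_pr hT2 hj2 hi2) (Primrec.const 0)))

theorem imp_pr {p q : α → Prop} (hp : PrimrecPred p) (hq : PrimrecPred q) :
    PrimrecPred fun a => p a → q a := by
  refine (hp.not.or hq).of_eq fun a => ?_
  exact (imp_iff_not_or).symm

theorem NE_pr : PrimrecPred fun x : List (List ℕ) × List ℕ => NE x.1 x.2 := by
  let A := List (List ℕ) × List ℕ
  have hT0 : Primrec fun x : A => x.1 := Primrec.fst
  have hl0 : Primrec fun x : A => x.2 := Primrec.snd
  have hT1 : Primrec fun x : A × ℕ => x.1.1 := hT0.comp Primrec.fst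
  have hl1 : Primrec fun x : A × ℕ => x.1.2 := hl0.comp Primrec.fst
  have hi1 : Primrec fun x : A × ℕ => x.2 := Primrec.snd
  have hT2 : Primrec fun x : (A × ℕ) × ℕ => x.1.1.1 := hT1.comp Primrec.fst
  have hl2 : Primrec fun x : (A × ℕ) × ℕ => x.1.1.2 := hl1.comp Primrec.fst
  have hi2 : Primrec fun x : (A × ℕ) × ℕ => x.1.2 := hi1.comp Primrec.fst
  have hj2 : Primrec fun x : (A × ℕ) × ℕ => x.2 := Primrec.snd
  have hT3 : Primrec fun x : ((A × ℕ) × ℕ) × ℕ => x.1.1.1.1 := hT2.comp Primrec.fst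
  have hl3 : Primrec fun x : ((A × ℕ) × ℕ) × ℕ => x.1.1.1.2 := hl2.comp Primrec.fst
  have hi3 : Primrec fun x : ((A × ℕ) × ℕ) × ℕ => x.1.1.2 := hi2.comp Primrec.fst
  have hj3 : Primrec fun x : ((A × ℕ) × ℕ) × ℕ => x.1.2 := hj2.comp Primrec.fst
  have hk3 : Primrec fun x : ((A × ℕ) × ℕ) × ℕ => x.2 := Primrec.snd
  refine PrimrecPred.and (pp_ball (rg_pr hT0) (pp_ball (rg_pr hT1)
    (pp_eq (vl_pr hl2 (mu_pr hT2 hi2 hj2)) (mu_pr hT2 (vl_pr hl2 hi2) (vl_pr hl2 hj2))))) ?_
  refine PrimrecPred.and (pp_ball (rg_pr hT0) (pp_eq (vl_pr hl1 (vl_pr hl1 hi1))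
    (vl_pr hl1 hi1))) ?_
  exact pp_ball (rg_pr hT0) (pp_ball (rg_pr hT1) (pp_ball (rg_pr hT2)
    (imp_pr (pp_eq (mu_pr hT3 hk3 hi3) (mu_pr hT3 hi3 hj3))
      (pp_eq (mu_pr hT3 (vl_pr hl3 hk3) hi3) (mu_pr hT3 hi3 (vl_pr hl3 hj3))))))

theorem IndT_pr : PrimrecPred IndT := by
  let A := List (List ℕ) × List ℕ
  have hT0 : Primrec fun x : A => x.1 := Primrec.fst
  have hl0 : Primrec fun x : A => x.2 := Primrec.snd
  have hl1 : Primrec fun x : A × ℕ => x.1.2 := hl0.comp Primrec.fst
  have hi1 : Primrec fun x : A × ℕ => x.2 := Primrec.snd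
  refine PrimrecPred.and (Primrec.nat_le.comp (Primrec.const 2) Primrec.list_length) ?_
  refine pp_ball (allL_pr Primrec.list_length Primrec.list_length) (imp_pr NE_pr ?_)
  exact PrimrecPred.or (pp_ball (rg_pr hT0) (pp_eq (vl_pr hl1 hi1) (Primrec.const 0)))
    (pp_ball (rg_pr hT0) (pp_eq (vl_pr hl1 hi1) hi1))

theorem NonT_pr : PrimrecPred fun x : List (List ℕ) × List (List ℕ) => NonT x.1 x.2 := by
  let A := (List (List ℕ) × List (List ℕ)) × List ℕ
  have hT0 : Primrec fun x : A => x.1.1 := Primrec.fst.comp Primrec.fst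
  have hS0 : Primrec fun x : A => x.1.2 := Primrec.snd.comp Primrec.fst
  have hl0 : Primrec fun x : A => x.2 := Primrec.snd
  have hT1 : Primrec fun x : A × ℕ => x.1.1.1 := hT0.comp Primrec.fst
  have hT2 : Primrec fun x : (A × ℕ) × ℕ => x.1.1.1.1 := hT1.comp Primrec.fst
  have hS2 : Primrec fun x : (A × ℕ) × ℕ => x.1.1.1.2 := (hS0.comp Primrec.fst).comp Primrec.fst
  have hl2 : Primrec fun x : (A × ℕ) × ℕ => x.1.1.2 := (hl0.comp Primrec.fst).comp Primrec.fst
  have hi2 : Primrec fun x : (A × ℕ) × ℕ => x.1.2 := Primrec.snd.comp Primrec.fst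
  have hj2 : Primrec fun x : (A × ℕ) × ℕ => x.2 := Primrec.snd
  refine pp_ball (allL_pr (Primrec.list_length.comp Primrec.snd)
    (Primrec.list_length.comp Primrec.fst)) (PrimrecPred.not ?_)
  refine PrimrecPred.and (pp_eq (Primrec.list_length.comp hT0) (Primrec.list_length.comp hS0)) ?_
  refine PrimrecPred.and (pp_ball (rg_pr hT0) (pp_ball (rg_pr hT1)
    (pp_eq (vl_pr hl2 (mu_pr hT2 hi2 hj2)) (mu_pr hS2 (vl_pr hl2 hi2) (vl_pr hl2 hj2))))) ?_
  exact pp_ball (rg_pr hT0) (pp_ball (rg_pr hT1)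
    (imp_pr (pp_eq (vl_pr hl2 hi2) (vl_pr hl2 hj2)) (pp_eq hi2 hj2)))

theorem prs_pr : Primrec prs := by
  refine Primrec.pair Primrec.list_length ?_
  refine Primrec.list_flatMap (rg_pr Primrec.id) ?_
  refine (Primrec.list_map (f := fun x : List (List ℕ) × ℕ => List.range x.1.length)
    (g := fun x j => [(x.2, true), (j, true), (mu x.1 x.2 j, false)])
    (rg_pr Primrec.fst) ?_).to₂
  have hT : Primrec fun x : (List (List ℕ) × ℕ) × ℕ => x.1.1 := Primrec.fst.comp Primrec.fst
  have hi : Primrec fun x : (List (List ℕ) × ℕ) × ℕ => x.1.2 := Primrec.snd.comp Primrec.fst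
  have hj : Primrec fun x : (List (List ℕ) × ℕ) × ℕ => x.2 := Primrec.snd
  exact (Primrec.list_cons.comp (hi.pair (Primrec.const true)) (Primrec.list_cons.comp
    (hj.pair (Primrec.const true)) (Primrec.list_cons.comp
      ((mu_pr hT hi hj).pair (Primrec.const false)) (Primrec.const [])))).to₂

end prim

/-- isomorphism as a relation -/
def Iso (x : Pres × Pres) : Prop := Nonempty (PG x.1 ≃* PG x.2)

theorem Iso_re : REPred Iso := iso_re

theorem iso_prs_re {α : Type} [Primcodable α] {f : α → Pres} {g : α → List (List ℕ)}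
    (hf : Primrec f) (hg : Primrec g) : REPred fun a => Iso (f a, prs (g a)) := by
  have h : Primrec fun a => ((f a, prs (g a)) : Pres × Pres) := Primrec.pair hf (prs_pr.comp hg)
  exact Pool.Agent.Helper926.RE.comp Iso_re h.to_comp

/-! ### 7. the module -/

theorem finInd_iff (k : Pres) : FinInd k ↔
    ∃ T, (GT T ∧ IndT T) ∧ Nonempty (PG k ≃* PG (prs T)) := by
  constructor
  · rintro ⟨hk, hI⟩
    obtain ⟨T, h, ⟨e⟩⟩ := (finite_iff k).1 hk
    obtain ⟨e'⟩ := prs_iso T h
    exact ⟨T, ⟨h, (IndT_iff T h).2 (Indec.congr (e.trans e') hI)⟩, ⟨e⟩⟩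
  · rintro ⟨T, ⟨h, hI⟩, ⟨e⟩⟩
    obtain ⟨e'⟩ := prs_iso T h
    exact ⟨(finite_iff k).2 ⟨T, h, ⟨e⟩⟩,
      Indec.congr (e.trans e').symm ((IndT_iff T h).1 hI)⟩

/-- a certificate for non-isomorphism -/
def NI (x : Pres × Pres) : Prop := ∃ c : List (List ℕ) × List (List ℕ),
  (GT c.1 ∧ GT c.2 ∧ NonT c.1 c.2) ∧ Iso (x.1, prs c.1) ∧ Iso (x.2, prs c.2)

theorem NI_re : REPred NI := by
  refine Pool.Agent.Helper926.RE.ex ?_
  have h1 : PrimrecPred fun z : (Pres × Pres) × (List (List ℕ) × List (List ℕ)) =>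
      GT z.2.1 ∧ GT z.2.2 ∧ NonT z.2.1 z.2.2 :=
    PrimrecPred.and (GT_pr.comp (Primrec.fst.comp Primrec.snd))
      (PrimrecPred.and (GT_pr.comp (Primrec.snd.comp Primrec.snd)) (NonT_pr.comp Primrec.snd))
  refine Pool.Agent.Helper926.RE.and h1.computablePred.to_re
    (Pool.Agent.Helper926.RE.and ?_ ?_)
  · exact iso_prs_re (Primrec.fst.comp Primrec.fst) (Primrec.fst.comp Primrec.snd)
  · exact iso_prs_re (Primrec.snd.comp Primrec.fst) (Primrec.snd.comp Primrec.snd)

theorem NI_sound {a b : Pres} (h : NI (a, b)) : ¬ Nonempty (PG a ≃* PG b) := by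
  rintro ⟨e⟩
  obtain ⟨⟨T, T'⟩, ⟨h1, h2, h3⟩, ⟨e1⟩, ⟨e2⟩⟩ := h
  obtain ⟨e3⟩ := prs_iso T h1
  obtain ⟨e4⟩ := prs_iso T' h2
  exact (NonT_iff T T' h1 h2).1 h3
    ⟨(((e3.symm.trans e1.symm).trans e).trans e2).trans e4⟩

theorem NI_complete {a b : Pres} (ha : Finite (PG a)) (hb : Finite (PG b))
    (h : ¬ Nonempty (PG a ≃* PG b)) : NI (a, b) := by
  obtain ⟨T, h1, ⟨e1⟩⟩ := (finite_iff a).1 ha
  obtain ⟨T', h2, ⟨e2⟩⟩ := (finite_iff b).1 hb
  obtain ⟨e3⟩ := prs_iso T h1
  obtain ⟨e4⟩ := prs_iso T' h2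
  refine ⟨(T, T'), ⟨h1, h2, (NonT_iff T T' h1 h2).2 ?_⟩, ⟨e1⟩, ⟨e2⟩⟩
  rintro ⟨e⟩
  exact h ⟨(((e1.trans e3).trans e).trans e4.symm).trans e2.symm⟩

/-- partial characteristic function with a given value -/
theorem part_val {α : Type} [Primcodable α] {p : α → Prop} (hp : REPred p) (v : Bool) :
    ∃ f : α →. Bool, Partrec f ∧ (∀ a, (f a).Dom ↔ p a) ∧ ∀ a, ∀ x ∈ f a, x = v := by
  refine ⟨fun a => (Part.assert (p a) fun _ => Part.some ()).map fun _ => v,
    Partrec.map hp (Computable.const v).to₂, ?_, ?_⟩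
  · intro a
    simp [Part.assert]
  · intro a x hx
    rw [Part.mem_map_iff] at hx
    obtain ⟨_, _, h⟩ := hx
    exact h.symm

theorem t_FRE : S_FRE := by
  refine ⟨?_, ?_⟩
  · have h1 : REPred fun k : Pres => ∃ T, (GT T ∧ IndT T) ∧ Iso (k, prs T) := by
      refine Pool.Agent.Helper926.RE.ex ?_
      have h1 : PrimrecPred fun z : Pres × List (List ℕ) => GT z.2 ∧ IndT z.2 :=
        PrimrecPred.and (GT_pr.comp Primrec.snd) (IndT_pr.comp Primrec.snd)
      exact Pool.Agent.Helper926.RE.and h1.computablePred.to_re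
        (iso_prs_re Primrec.fst Primrec.snd)
    exact h1.of_eq fun k => (finInd_iff k).symm
  · obtain ⟨f, hf, hf1, hf2⟩ := part_val Iso_re true
    obtain ⟨g, hg, hg1, hg2⟩ := part_val NI_re false
    obtain ⟨k, hk, hk1⟩ := Partrec.merge' hf hg
    refine ⟨k, hk, ?_⟩
    intro a b ha hb
    constructor
    · intro hab
      have hd : (k (a, b)).Dom := (hk1 (a, b)).2.2 (Or.inl ((hf1 (a, b)).2 hab))
      have hx := (hk1 (a, b)).1 _ (Part.get_mem hd)
      have hv : (k (a, b)).get hd = true := by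
        rcases hx with hx | hx
        · exact hf2 _ _ hx
        · exact absurd hab (NI_sound ((hg1 (a, b)).1 (Part.dom_iff_mem.2 ⟨_, hx⟩)))
      rw [← hv]
      exact Part.get_mem hd
    · intro hab
      have hd : (k (a, b)).Dom :=
        (hk1 (a, b)).2.2 (Or.inr ((hg1 (a, b)).2 (NI_complete ha.1 hb.1 hab)))
      have hx := (hk1 (a, b)).1 _ (Part.get_mem hd)
      have hv : (k (a, b)).get hd = false := by
        rcases hx with hx | hx
        · exact absurd ((hf1 (a, b)).1 (Part.dom_iff_mem.2 ⟨_, hx⟩)) hab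
        · exact hg2 _ _ hx
      rw [← hv]
      exact Part.get_mem hd

end Pool.Agent.L0h63.GI.FRE
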